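import Pool.Agent.Run7.h285.V.Stm

/-! Piece V:VMS of helper285: second moments of the cut Bateman-Horn constants. -/

set_option autoImplicit false

namespace Pool.Agent.Run7.h760.VMS

open Finset Filter Topology Polynomial
open Run7.h285.S (Bx)
open Run7.h285.G (Gd nu SS)

variable {k : ℕ}

/-- `F` is periodic modulo `N` in each variable -/
def Per (N : ℕ) (F : (Fin k → ℤ) → ℝ) : Prop :=
  ∀ a b : Fin k → ℤ, (∀ i, (N : ℤ) ∣ a i - b i) → F a = F b

/-- representatives -/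
def rep {N : ℕ} (c : Fin k → ZMod N) : Fin k → ℤ := fun i => ((c i).val : ℤ)

/-- the sum over the residues -/
noncomputable def Sm (N : ℕ) (F : (Fin k → ℤ) → ℝ) : ℝ := ∑ᶠ c : Fin k → ZMod N, F (rep c)

theorem Sm_eq (N : ℕ) [NeZero N] (F : (Fin k → ℤ) → ℝ) :
    Sm N F = ∑ c : Fin k → ZMod N, F (rep c) := finsum_eq_sum_of_fintype _

theorem Per.mono {N M : ℕ} (h : N ∣ M) {F : (Fin k → ℤ) → ℝ} (hF : Per N F) : Per M F :=
  fun a b hab => hF a b fun i => (Int.natCast_dvd_natCast.2 h).trans (hab i)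

theorem dvd_sub_of_cast {N : ℕ} {s t : ℤ} (h : (s : ZMod N) = (t : ZMod N)) : (N : ℤ) ∣ s - t :=
  (ZMod.intCast_eq_intCast_iff_dvd_sub t s N).1 h.symm

theorem crt {m n : ℕ} (hm : m ≠ 0) (hn : n ≠ 0) (h : m.Coprime n)
    (F G : (Fin k → ℤ) → ℝ) (hF : Per m F) (hG : Per n G) :
    Sm (m * n) (fun a => F a * G a) = Sm m F * Sm n G := by
  classical
  haveI : NeZero m := ⟨hm⟩
  haveI : NeZero n := ⟨hn⟩
  haveI : NeZero (m * n) := ⟨mul_ne_zero hm hn⟩
  rw [Sm_eq, Sm_eq, Sm_eq, Fintype.sum_mul_sum, ← Fintype.sum_prod_type']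
  let e : (Fin k → ZMod (m * n)) ≃ (Fin k → ZMod m) × (Fin k → ZMod n) :=
    (Equiv.arrowCongr (Equiv.refl _) (ZMod.chineseRemainder h).toEquiv).trans
      (Equiv.arrowProdEquivProdArrow _ _ _)
  have key : ∀ x : ZMod (m * n), (ZMod.chineseRemainder h x) =
      (((x.val : ℕ) : ZMod m), ((x.val : ℕ) : ZMod n)) := by
    intro x
    conv_lhs => rw [← ZMod.natCast_zmod_val x]
    rw [map_natCast]
    rfl
  refine Fintype.sum_equiv e _ _ fun c => ?_
  have e1 : ∀ i, (e c).1 i = (((c i).val : ℕ) : ZMod m) := by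
    intro i
    show (ZMod.chineseRemainder h (c i)).1 = _
    rw [key]
  have e2 : ∀ i, (e c).2 i = (((c i).val : ℕ) : ZMod n) := by
    intro i
    show (ZMod.chineseRemainder h (c i)).2 = _
    rw [key]
  congr 1
  · apply hF
    intro i
    apply dvd_sub_of_cast
    show (((c i).val : ℤ) : ZMod m) = ((((e c).1 i).val : ℤ) : ZMod m)
    rw [Int.cast_natCast, Int.cast_natCast, ZMod.natCast_zmod_val, e1]
  · apply hG
    intro i
    apply dvd_sub_of_cast
    show (((c i).val : ℤ) : ZMod n) = ((((e c).2 i).val : ℤ) : ZMod n)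
    rw [Int.cast_natCast, Int.cast_natCast, ZMod.natCast_zmod_val, e2]

theorem Sm_prod (S : Finset ℕ) (hS : ∀ p ∈ S, p.Prime) (g : ℕ → (Fin k → ℤ) → ℝ)
    (hg : ∀ p ∈ S, Per p (g p)) :
    Per (∏ p ∈ S, p) (fun a => ∏ p ∈ S, g p a) ∧
      Sm (∏ p ∈ S, p) (fun a => ∏ p ∈ S, g p a) = ∏ p ∈ S, Sm p (g p) := by
  classical
  induction S using Finset.induction_on with
  | empty =>
    refine ⟨fun a b _ => by simp, ?_⟩
    rw [Finset.prod_empty, Sm_eq]
    simp
  | insert p S hp ih =>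
    obtain ⟨h1, h2⟩ := ih (fun q hq => hS q (mem_insert_of_mem hq))
      (fun q hq => hg q (mem_insert_of_mem hq))
    have hpp := hS p (mem_insert_self _ _)
    have hcop : p.Coprime (∏ q ∈ S, q) := by
      refine Nat.Coprime.prod_right fun q hq => ?_
      refine (Nat.coprime_primes hpp (hS q (mem_insert_of_mem hq))).2 ?_
      rintro rfl
      exact hp hq
    have hQ0 : (∏ q ∈ S, q) ≠ 0 :=
      prod_ne_zero_iff.2 fun q hq => (hS q (mem_insert_of_mem hq)).ne_zero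
    have hgp := hg p (mem_insert_self _ _)
    rw [prod_insert hp, prod_insert hp]
    have e : (fun a : Fin k → ℤ => ∏ q ∈ insert p S, g q a) =
        fun a => g p a * ∏ q ∈ S, g q a := by
      funext a
      rw [prod_insert hp]
    rw [e]
    refine ⟨?_, ?_⟩
    · intro a b hab
      show g p a * _ = g p b * _
      rw [hgp.mono (Dvd.intro _ rfl) a b hab]
      congr 1
      exact h1.mono (Dvd.intro_left _ rfl) a b hab
    · rw [crt hpp.ne_zero hQ0 hcop _ _ hgp h1, h2]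

theorem card_res (X Q : ℕ) (hQ : 1 ≤ Q) (hX : Q ≤ X) (c : ZMod Q) :
    (#((Icc (-(X : ℤ)) X).filter fun t : ℤ => (t : ZMod Q) = c) : ℝ) ≤ 4 * X / Q := by
  classical
  set A := (Icc (-(X : ℤ)) X).filter fun t : ℤ => (t : ZMod Q) = c with hA
  have hQ0 : (0 : ℤ) < Q := by exact_mod_cast hQ
  have hQr : (0 : ℝ) < Q := by exact_mod_cast hQ
  have hinj : Set.InjOn (fun t : ℤ => t / (Q : ℤ)) (A : Set ℤ) := by
    intro s hs t ht hst
    have hs' := (mem_filter.1 (mem_coe.1 hs)).2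
    have ht' := (mem_filter.1 (mem_coe.1 ht)).2
    have h1 : (s : ZMod Q) = (t : ZMod Q) := by rw [hs', ht']
    have h2 : s % Q = t % Q := (ZMod.intCast_eq_intCast_iff s t Q).1 h1
    have h3 := Int.emod_add_mul_ediv s Q
    have h4 := Int.emod_add_mul_ediv t Q
    have h5 : s / (Q : ℤ) = t / (Q : ℤ) := hst
    rw [← h3, ← h4, h2, h5]
  have himg : A.image (fun t : ℤ => t / (Q : ℤ)) ⊆ Icc (-(X : ℤ) / Q) ((X : ℤ) / Q) := by
    intro t ht
    obtain ⟨s, hs, rfl⟩ := mem_image.1 ht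
    obtain ⟨h1, h2⟩ := mem_Icc.1 (mem_filter.1 hs).1
    exact mem_Icc.2 ⟨Int.ediv_le_ediv hQ0 h1, Int.ediv_le_ediv hQ0 h2⟩
  have hcard : #A ≤ ((X : ℤ) / Q + 1 - (-(X : ℤ) / Q)).toNat := by
    rw [← card_image_of_injOn hinj, ← Int.card_Icc]
    exact card_le_card himg
  have h1 : (((X : ℤ) / Q : ℤ) : ℝ) ≤ X / Q := by
    rw [le_div_iff₀ hQr]
    exact_mod_cast Int.ediv_mul_le (X : ℤ) hQ0.ne'
  have h2 : -((X : ℝ) / Q) - 1 ≤ ((-(X : ℤ) / Q : ℤ) : ℝ) := by
    have : -(X : ℤ) < (-(X : ℤ) / Q + 1) * Q := Int.lt_ediv_add_one_mul_self _ hQ0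
    have h' : (-(X : ℝ)) < (((-(X : ℤ) / Q : ℤ) : ℝ) + 1) * Q := by exact_mod_cast this
    have : -((X : ℝ) / Q) < ((-(X : ℤ) / Q : ℤ) : ℝ) + 1 := by
      rw [← neg_div, div_lt_iff₀ hQr]
      exact h'
    linarith
  have h3 : (1 : ℝ) ≤ X / Q := by
    rw [le_div_iff₀ hQr, one_mul]
    exact_mod_cast hX
  have h0 : (0 : ℤ) ≤ (X : ℤ) / Q + 1 - (-(X : ℤ) / Q) := by
    have : -(X : ℤ) / Q ≤ (X : ℤ) / Q := Int.ediv_le_ediv hQ0 (by omega)
    linarith
  have h4 : ((((X : ℤ) / Q + 1 - (-(X : ℤ) / Q)).toNat : ℕ) : ℝ) =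
      ((X : ℤ) / Q : ℤ) + 1 - ((-(X : ℤ) / Q : ℤ) : ℝ) := by
    have : ((((X : ℤ) / Q + 1 - (-(X : ℤ) / Q)).toNat : ℕ) : ℤ) =
      (X : ℤ) / Q + 1 - (-(X : ℤ) / Q) := Int.toNat_of_nonneg h0
    have h5 : (((((X : ℤ) / Q + 1 - (-(X : ℤ) / Q)).toNat : ℕ) : ℤ) : ℝ) =
      (((X : ℤ) / Q + 1 - (-(X : ℤ) / Q) : ℤ) : ℝ) := by rw [this]
    push_cast at h5 ⊢
    exact h5
  have h5 : (#A : ℝ) ≤ ((((X : ℤ) / Q + 1 - (-(X : ℤ) / Q)).toNat : ℕ) : ℝ) := by
    exact_mod_cast hcard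
  rw [h4] at h5
  have h6 : 4 * (X : ℝ) / Q = 4 * (X / Q) := by ring
  rw [h6]
  linarith

theorem box_le (X Q : ℕ) (hQ : 1 ≤ Q) (hX : Q ≤ X) (F : (Fin k → ℤ) → ℝ) (hF : Per Q F)
    (h0 : ∀ a, 0 ≤ F a) : ∑ a ∈ Bx k X, F a ≤ (4 * X / Q) ^ k * Sm Q F := by
  classical
  haveI : NeZero Q := ⟨by omega⟩
  rw [Sm_eq, mul_sum]
  have e : ∑ a ∈ Bx k X, F a = ∑ c : Fin k → ZMod Q,
      ∑ a ∈ (Bx k X).filter (fun a => (fun i => (a i : ZMod Q)) = c), F a :=
    (Finset.sum_fiberwise _ _ _).symm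
  rw [e]
  refine sum_le_sum fun c _ => ?_
  have h1 : ∀ a ∈ (Bx k X).filter (fun a => (fun i => (a i : ZMod Q)) = c),
      F a = F (rep c) := by
    intro a ha
    apply hF
    intro i
    apply dvd_sub_of_cast
    have : (a i : ZMod Q) = c i := congrFun (mem_filter.1 ha).2 i
    rw [this]
    show c i = (((c i).val : ℤ) : ZMod Q)
    rw [Int.cast_natCast, ZMod.natCast_zmod_val]
  rw [sum_congr rfl h1, sum_const, nsmul_eq_mul]
  refine mul_le_mul_of_nonneg_right ?_ (h0 _)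
  have h2 : (Bx k X).filter (fun a => (fun i => (a i : ZMod Q)) = c) =
      Fintype.piFinset (fun i => (Icc (-(X : ℤ)) X).filter fun t : ℤ => (t : ZMod Q) = c i) := by
    ext a
    simp only [Bx, mem_filter, Fintype.mem_piFinset, funext_iff]
    exact forall_and.symm
  rw [h2, Fintype.card_piFinset]
  push_cast
  calc ∏ i, (#((Icc (-(X : ℤ)) X).filter fun t : ℤ => (t : ZMod Q) = c i) : ℝ)
      ≤ ∏ _i : Fin k, (4 * (X : ℝ) / Q) :=
        prod_le_prod (fun _ _ => by positivity) fun i _ => card_res X Q hQ hX (c i)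
    _ = _ := by rw [prod_const, card_univ, Fintype.card_fin]

/-! ### one prime -/

/-- `0` if `c = -v`, else `1` -/
noncomputable def nd {p : ℕ} (c v : ZMod p) : ℝ := by
  classical exact if c = -v then 0 else 1

theorem sum_nd (p : ℕ) [hp : Fact p.Prime] (v : ZMod p) : ∑ t : ZMod p, nd t v = p - 1 := by
  classical
  have : ∀ t : ZMod p, nd t v = 1 - (if t = -v then (1 : ℝ) else 0) := by
    intro t
    unfold nd
    split_ifs <;> simp
  rw [Finset.sum_congr rfl fun t _ => this t, sum_sub_distrib, Finset.sum_ite_eq']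
  simp [ZMod.card]

theorem sum_nd2 (p : ℕ) [hp : Fact p.Prime] (v w : ZMod p) :
    ∑ t : ZMod p, nd t v * nd t w = p - 2 + (if v = w then 1 else 0) := by
  classical
  by_cases h : v = w
  · subst h
    have : ∀ t : ZMod p, nd t v * nd t v = nd t v := by
      intro t
      unfold nd
      split_ifs <;> simp
    rw [Finset.sum_congr rfl fun t _ => this t, sum_nd, if_pos rfl]
    ring
  · have : ∀ t : ZMod p, nd t v * nd t w =
        1 - (if t = -v then (1 : ℝ) else 0) - (if t = -w then (1 : ℝ) else 0) := by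
      intro t
      unfold nd
      by_cases h1 : t = -v
      · have h2 : t ≠ -w := by
          intro h2
          exact h (neg_injective (h1.symm.trans h2))
        rw [if_pos h1, if_pos h1, if_neg h2, if_neg h2]
        norm_num
      · by_cases h2 : t = -w
        · rw [if_neg h1, if_neg h1, if_pos h2, if_pos h2]
          norm_num
        · rw [if_neg h1, if_neg h1, if_neg h2, if_neg h2]
          norm_num
    rw [Finset.sum_congr rfl fun t _ => this t, sum_sub_distrib, sum_sub_distrib,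
      Finset.sum_ite_eq', Finset.sum_ite_eq', if_neg h]
    simp [ZMod.card]
    ring

/-- the value of the polynomial `f l` modulo `p` -/
def vl (f : Fin k → ℤ[X]) (p : ℕ) (x : ℕ) (l : Fin k) : ZMod p :=
  (((f l).eval (x : ℤ) : ℤ) : ZMod p)

theorem u_eq (f : Fin k → ℤ[X]) (p : ℕ) [hp : Fact p.Prime] (c : Fin k → ZMod p) :
    1 - (nu f (rep c) p : ℝ) / p =
      (1 / p) * ∑ x ∈ range p, ∏ l, nd (c l) (vl f p x l) := by
  classical
  have hp0 : (0 : ℝ) < p := by exact_mod_cast hp.out.pos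
  have hiff : ∀ (x : ℕ) (l : Fin k), (p : ℤ) ∣ (f l).eval (x : ℤ) + rep c l ↔
      c l = - vl f p x l := by
    intro x l
    rw [← ZMod.intCast_zmod_eq_zero_iff_dvd, Int.cast_add]
    have : ((rep c l : ℤ) : ZMod p) = c l := by
      show (((c l).val : ℤ) : ZMod p) = c l
      rw [Int.cast_natCast, ZMod.natCast_zmod_val]
    rw [this]
    unfold vl
    rw [add_comm, add_eq_zero_iff_eq_neg]
  have hprod : ∀ x : ℕ, ∏ l, nd (c l) (vl f p x l) =
      if (∃ l, (p : ℤ) ∣ (f l).eval (x : ℤ) + rep c l) then 0 else 1 := by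
    intro x
    split_ifs with h
    · obtain ⟨l, hl⟩ := h
      refine prod_eq_zero (mem_univ l) ?_
      unfold nd
      rw [if_pos ((hiff x l).1 hl)]
    · push Not at h
      refine prod_eq_one fun l _ => ?_
      unfold nd
      rw [if_neg fun hc => h l ((hiff x l).2 hc)]
  have h1 : ∑ x ∈ range p, ∏ l, nd (c l) (vl f p x l) = p - nu f (rep c) p := by
    have e : ∀ x : ℕ, (if (∃ l, (p : ℤ) ∣ (f l).eval (x : ℤ) + rep c l) then (0 : ℝ) else 1) =
        1 - (if (∃ l, (p : ℤ) ∣ (f l).eval (x : ℤ) + rep c l) then (1 : ℝ) else 0) := by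
      intro x
      split_ifs <;> simp
    rw [sum_congr rfl fun x _ => hprod x, sum_congr rfl fun x _ => e x, sum_sub_distrib,
      sum_boole]
    unfold nu
    simp
  rw [h1]
  field_simp

theorem sum_prod_univ {p : ℕ} [hp : Fact p.Prime] (g : Fin k → ZMod p → ℝ) :
    ∑ c : Fin k → ZMod p, ∏ l, g l (c l) = ∏ l, ∑ t : ZMod p, g l t := by
  classical
  rw [Finset.prod_univ_sum, Fintype.piFinset_univ]

theorem mean_one (f : Fin k → ℤ[X]) (p : ℕ) [hp : Fact p.Prime] :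
    ∑ c : Fin k → ZMod p, (1 - (nu f (rep c) p : ℝ) / p) = ((p : ℝ) - 1) ^ k := by
  classical
  have hp0 : (0 : ℝ) < p := by exact_mod_cast hp.out.pos
  rw [sum_congr rfl fun c _ => u_eq f p c, ← mul_sum, sum_comm]
  have : ∀ x ∈ range p, ∑ c : Fin k → ZMod p, ∏ l, nd (c l) (vl f p x l) =
      ((p : ℝ) - 1) ^ k := by
    intro x _
    rw [sum_prod_univ (fun l t => nd t (vl f p x l))]
    rw [prod_congr rfl fun l _ => sum_nd p (vl f p x l)]
    simp
  rw [sum_congr rfl this, sum_const, card_range, nsmul_eq_mul]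
  field_simp

theorem prod_add_le (s : Finset (Fin k)) (α : ℝ) (ε : Fin k → ℝ) (hα : 0 ≤ α)
    (hε : ∀ l, 0 ≤ ε l) (h1 : ∀ l, α + ε l ≤ 1) :
    ∏ l ∈ s, (α + ε l) ≤ α ^ #s + ∑ l ∈ s, ε l := by
  classical
  induction s using Finset.induction_on with
  | empty => simp
  | insert i s hi ih =>
    rw [prod_insert hi, sum_insert hi, card_insert_of_notMem hi, pow_succ]
    have hP0 : 0 ≤ ∏ l ∈ s, (α + ε l) := prod_nonneg fun l _ => add_nonneg hα (hε l)
    have hP1 : ∏ l ∈ s, (α + ε l) ≤ 1 :=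
      prod_le_one (fun l _ => add_nonneg hα (hε l)) fun l _ => h1 l
    have hα1 : α ≤ 1 := by linarith [h1 i, hε i]
    have hS : 0 ≤ ∑ l ∈ s, ε l := sum_nonneg fun l _ => hε l
    calc (α + ε i) * ∏ l ∈ s, (α + ε l)
        = α * ∏ l ∈ s, (α + ε l) + ε i * ∏ l ∈ s, (α + ε l) := by ring
      _ ≤ α * (α ^ #s + ∑ l ∈ s, ε l) + ε i * 1 :=
          add_le_add (mul_le_mul_of_nonneg_left ih hα) (mul_le_mul_of_nonneg_left hP1 (hε i))
      _ ≤ α ^ #s * α + (ε i + ∑ l ∈ s, ε l) := by nlinarith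

/-- the number of the pairs with equal values -/
noncomputable def Nl (f : Fin k → ℤ[X]) (p : ℕ) (l : Fin k) : ℝ := by
  classical exact ∑ x ∈ range p, ∑ y ∈ range p, (if vl f p x l = vl f p y l then 1 else 0)

theorem mean_two (f : Fin k → ℤ[X]) (p : ℕ) [hp : Fact p.Prime] :
    ∑ c : Fin k → ZMod p, (1 - (nu f (rep c) p : ℝ) / p) ^ 2 ≤
      (p : ℝ) ^ k * ((1 - 2 / (p : ℝ)) ^ k + (∑ l, Nl f p l) / (p : ℝ) ^ 3) := by
  classical
  have hp0 : (0 : ℝ) < p := by exact_mod_cast hp.out.pos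
  have hp2 : (2 : ℝ) ≤ p := by exact_mod_cast hp.out.two_le
  have e1 : ∀ c : Fin k → ZMod p, (1 - (nu f (rep c) p : ℝ) / p) ^ 2 =
      (1 / (p : ℝ) ^ 2) * ∑ x ∈ range p, ∑ y ∈ range p,
        ∏ l, (nd (c l) (vl f p x l) * nd (c l) (vl f p y l)) := by
    intro c
    rw [u_eq f p c, mul_pow, sq (∑ x ∈ range p, _), sum_mul_sum]
    congr 1
    · ring
    · refine sum_congr rfl fun x _ => sum_congr rfl fun y _ => ?_
      rw [prod_mul_distrib]
  rw [sum_congr rfl fun c _ => e1 c, ← mul_sum, sum_comm]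
  have e2 : ∀ x ∈ range p, ∑ c : Fin k → ZMod p, ∑ y ∈ range p,
      ∏ l, (nd (c l) (vl f p x l) * nd (c l) (vl f p y l)) ≤
      (p : ℝ) ^ k * ∑ y ∈ range p, ((1 - 2 / (p : ℝ)) ^ k +
        ∑ l, (if vl f p x l = vl f p y l then (1 : ℝ) else 0) / p) := by
    intro x _
    rw [sum_comm, mul_sum]
    refine sum_le_sum fun y _ => ?_
    rw [sum_prod_univ (fun l t => nd t (vl f p x l) * nd t (vl f p y l))]
    rw [prod_congr rfl fun l _ => sum_nd2 p (vl f p x l) (vl f p y l)]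
    have e3 : ∏ l : Fin k, ((p : ℝ) - 2 + (if vl f p x l = vl f p y l then (1 : ℝ) else 0)) =
        (p : ℝ) ^ k * ∏ l : Fin k, ((1 - 2 / (p : ℝ)) +
          (if vl f p x l = vl f p y l then (1 : ℝ) else 0) / p) := by
      have : (p : ℝ) ^ k = ∏ _l : Fin k, (p : ℝ) := by simp
      rw [this, ← prod_mul_distrib]
      refine prod_congr rfl fun l _ => ?_
      field_simp
    rw [e3]
    refine mul_le_mul_of_nonneg_left ?_ (by positivity)
    have h2p : 2 / (p : ℝ) ≤ 1 := by rw [div_le_one hp0]; exact hp2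
    have := prod_add_le (univ : Finset (Fin k)) (1 - 2 / (p : ℝ))
      (fun l => (if vl f p x l = vl f p y l then (1 : ℝ) else 0) / p) (by linarith)
      (fun l => by positivity) (fun l => by
        have h3 : (if vl f p x l = vl f p y l then (1 : ℝ) else 0) / p ≤ 1 / p := by
          refine div_le_div_of_nonneg_right ?_ hp0.le
          split_ifs <;> norm_num
        have h4 : 2 / (p : ℝ) = 1 / p + 1 / p := by ring
        have h5 : 0 ≤ 1 / (p : ℝ) := by positivity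
        linarith)
    simpa using this
  calc (1 / (p : ℝ) ^ 2) * ∑ x ∈ range p, ∑ c : Fin k → ZMod p, ∑ y ∈ range p,
        ∏ l, (nd (c l) (vl f p x l) * nd (c l) (vl f p y l))
      ≤ (1 / (p : ℝ) ^ 2) * ∑ x ∈ range p, ((p : ℝ) ^ k * ∑ y ∈ range p,
        ((1 - 2 / (p : ℝ)) ^ k + ∑ l, (if vl f p x l = vl f p y l then (1 : ℝ) else 0) / p)) :=
        mul_le_mul_of_nonneg_left (sum_le_sum e2) (by positivity)
    _ = (p : ℝ) ^ k * ((1 - 2 / (p : ℝ)) ^ k + (∑ l, Nl f p l) / (p : ℝ) ^ 3) := by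
        have e4 : ∑ x ∈ range p, ∑ y ∈ range p, ∑ l,
            (if vl f p x l = vl f p y l then (1 : ℝ) else 0) / p = (∑ l, Nl f p l) / p := by
          rw [sum_div]
          unfold Nl
          rw [sum_congr rfl fun x _ => sum_comm, sum_comm]
          refine sum_congr rfl fun l _ => ?_
          rw [sum_div]
          refine sum_congr rfl fun x _ => ?_
          rw [sum_div]
        rw [← mul_sum]
        simp only [sum_add_distrib, sum_const, card_range, nsmul_eq_mul]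
        rw [e4]
        field_simp

/-- the constant for the number of the coincidences -/
def Dl (f : Fin k → ℤ[X]) (l : Fin k) : ℕ := (f l).natDegree + (f l).leadingCoeff.natAbs

theorem Nl_le (f : Fin k → ℤ[X]) (hf : ∀ l, Gd (f l)) (p : ℕ) [hp : Fact p.Prime] (l : Fin k) :
    Nl f p l ≤ p * Dl f l := by
  classical
  unfold Nl
  have key : ∀ x ∈ range p, ∑ y ∈ range p, (if vl f p x l = vl f p y l then (1 : ℝ) else 0) ≤
      Dl f l := by
    intro x _
    rw [sum_boole]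
    by_cases hlc : ((f l).leadingCoeff : ZMod p) = 0
    · have h1 : (p : ℤ) ∣ (f l).leadingCoeff := (ZMod.intCast_zmod_eq_zero_iff_dvd _ _).1 hlc
      have h2 : p ≤ (f l).leadingCoeff.natAbs := by
        refine Nat.le_of_dvd (Int.natAbs_pos.2 (hf l).2.ne') ?_
        exact Int.natCast_dvd.1 h1
      have h3 : #((range p).filter fun y => vl f p x l = vl f p y l) ≤ p := by
        refine (card_filter_le _ _).trans ?_
        rw [card_range]
      have : #((range p).filter fun y => vl f p x l = vl f p y l) ≤ Dl f l := by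
        unfold Dl
        omega
      exact_mod_cast this
    · set g : (ZMod p)[X] := (f l).map (Int.castRingHom (ZMod p)) - C (vl f p x l) with hg
      have hdeg : ((f l).map (Int.castRingHom (ZMod p))).natDegree = (f l).natDegree := by
        refine natDegree_map_of_leadingCoeff_ne_zero _ ?_
        simpa using hlc
      have hgd : g.natDegree = (f l).natDegree := by
        rw [hg, natDegree_sub_C, hdeg]
      have hg0 : g ≠ 0 := by
        intro h0
        rw [h0, natDegree_zero] at hgd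
        have := (hf l).1
        omega
      have hsub : ((range p).filter fun y => vl f p x l = vl f p y l).image
          (fun y : ℕ => (y : ZMod p)) ⊆ g.roots.toFinset := by
        intro t ht
        obtain ⟨y, hy, rfl⟩ := mem_image.1 ht
        have hy2 := (mem_filter.1 hy).2
        rw [Multiset.mem_toFinset, mem_roots hg0, IsRoot.def, hg, eval_sub, eval_C, hy2]
        unfold vl
        rw [sub_eq_zero]
        have : ((y : ℕ) : ZMod p) = Int.castRingHom (ZMod p) (y : ℤ) := by simp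
        rw [this, eval_map, eval₂_at_apply]
        rfl
      have hinj : Set.InjOn (fun y : ℕ => (y : ZMod p))
          (((range p).filter fun y => vl f p x l = vl f p y l : Finset ℕ) : Set ℕ) := by
        intro s hs t ht hst
        have hs' := mem_range.1 (mem_filter.1 (mem_coe.1 hs)).1
        have ht' := mem_range.1 (mem_filter.1 (mem_coe.1 ht)).1
        have := (ZMod.natCast_eq_natCast_iff' s t p).1 hst
        rwa [Nat.mod_eq_of_lt hs', Nat.mod_eq_of_lt ht'] at this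
      have h5 : #((range p).filter fun y => vl f p x l = vl f p y l) ≤ Dl f l := by
        calc #((range p).filter fun y => vl f p x l = vl f p y l)
            = #(((range p).filter fun y => vl f p x l = vl f p y l).image
              (fun y : ℕ => (y : ZMod p))) := (card_image_of_injOn hinj).symm
          _ ≤ #g.roots.toFinset := card_le_card hsub
          _ ≤ Multiset.card g.roots := Multiset.toFinset_card_le _
          _ ≤ g.natDegree := card_roots' g
          _ ≤ Dl f l := by rw [hgd]; unfold Dl; omega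
      exact_mod_cast h5
  refine (sum_le_sum key).trans ?_
  rw [sum_const, card_range, nsmul_eq_mul]

/-- the factor of the constant at `p` -/
noncomputable def xp (f : Fin k → ℤ[X]) (p : ℕ) (a : Fin k → ℤ) : ℝ :=
  (1 - (nu f a p : ℝ) / p) / (1 - 1 / (p : ℝ)) ^ k

theorem nu_per (f : Fin k → ℤ[X]) (p : ℕ) (a b : Fin k → ℤ) (h : ∀ i, (p : ℤ) ∣ a i - b i) :
    nu f a p = nu f b p := by
  classical
  unfold nu
  congr 1
  refine filter_congr fun x _ => exists_congr fun l => ?_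
  have : (f l).eval (x : ℤ) + a l = ((f l).eval (x : ℤ) + b l) + (a l - b l) := by ring
  rw [this]
  exact dvd_add_left (h l)

theorem xp_per (f : Fin k → ℤ[X]) (p : ℕ) : Per p (xp f p) := by
  intro a b h
  unfold xp
  rw [nu_per f p a b h]

/-- the mean of the square of the factor -/
noncomputable def ep (f : Fin k → ℤ[X]) (p : ℕ) : ℝ := Sm p (fun a => xp f p a ^ 2) / (p : ℝ) ^ k

theorem xp_mean (f : Fin k → ℤ[X]) (p : ℕ) (hp : p.Prime) :
    Sm p (xp f p) / (p : ℝ) ^ k = 1 := by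
  haveI : Fact p.Prime := ⟨hp⟩
  have hp0 : (0 : ℝ) < p := by exact_mod_cast hp.pos
  have hp1 : (0 : ℝ) < (p : ℝ) - 1 := by
    have : (2 : ℝ) ≤ p := by exact_mod_cast hp.two_le
    linarith
  rw [Sm_eq]
  unfold xp
  rw [← sum_div, mean_one]
  have : (1 - 1 / (p : ℝ)) = (p - 1) / p := by field_simp
  rw [this, div_pow]
  field_simp

theorem const_mean (p : ℕ) (hp : p.Prime) :
    Sm p (fun _ : Fin k → ℤ => (1 : ℝ)) / (p : ℝ) ^ k = 1 := by
  haveI : Fact p.Prime := ⟨hp⟩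
  have hp0 : (0 : ℝ) < p := by exact_mod_cast hp.pos
  rw [Sm_eq, sum_const, card_univ, nsmul_eq_mul, mul_one]
  have : Fintype.card (Fin k → ZMod p) = p ^ k := by simp [ZMod.card]
  rw [this]
  push_cast
  field_simp

/-- the constant `K₁` -/
noncomputable def K1 (f : Fin k → ℤ[X]) : ℝ := 4 ^ k * ∑ l, (Dl f l : ℝ)

theorem K1_nonneg (f : Fin k → ℤ[X]) : 0 ≤ K1 f := by
  unfold K1
  positivity

theorem ep_nonneg (f : Fin k → ℤ[X]) (p : ℕ) (hp : p.Prime) : 0 ≤ ep f p := by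
  haveI : Fact p.Prime := ⟨hp⟩
  unfold ep
  rw [Sm_eq]
  positivity

theorem ep_le (f : Fin k → ℤ[X]) (hf : ∀ l, Gd (f l)) (p : ℕ) (hp : p.Prime) :
    ep f p ≤ 1 + K1 f * ((p : ℝ) ^ 2)⁻¹ := by
  haveI : Fact p.Prime := ⟨hp⟩
  have hp0 : (0 : ℝ) < p := by exact_mod_cast hp.pos
  have hp2 : (2 : ℝ) ≤ p := by exact_mod_cast hp.two_le
  have h2p : 1 / (p : ℝ) ≤ 1 / 2 := one_div_le_one_div_of_le (by norm_num) hp2
  have hq : 1 / 2 ≤ 1 - 1 / (p : ℝ) := by linarith
  have hq0 : 0 < 1 - 1 / (p : ℝ) := by linarith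
  set u : ℝ := 1 - 1 / (p : ℝ) with hu
  unfold ep
  rw [Sm_eq]
  have e1 : ∑ c : Fin k → ZMod p, xp f p (rep c) ^ 2 =
      (∑ c : Fin k → ZMod p, (1 - (nu f (rep c) p : ℝ) / p) ^ 2) / (u ^ 2) ^ k := by
    rw [sum_div]
    refine sum_congr rfl fun c _ => ?_
    unfold xp
    rw [div_pow, ← pow_mul, ← pow_mul, mul_comm]
  rw [e1]
  have hN : ∑ l, Nl f p l ≤ p * ∑ l, (Dl f l : ℝ) := by
    rw [mul_sum]
    exact sum_le_sum fun l _ => Nl_le f hf p l
  have hD : 0 ≤ ∑ l, (Dl f l : ℝ) := by positivity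
  have h1 := mean_two f p
  have h3 : (∑ l, Nl f p l) / (p : ℝ) ^ 3 ≤ (∑ l, (Dl f l : ℝ)) * ((p : ℝ) ^ 2)⁻¹ := by
    rw [div_le_iff₀ (by positivity)]
    refine hN.trans (le_of_eq ?_)
    field_simp
  have h4 : (1 - 2 / (p : ℝ)) ^ k ≤ (u ^ 2) ^ k := by
    refine pow_le_pow_left₀ ?_ ?_ k
    · have : 2 / (p : ℝ) = 1 / p + 1 / p := by ring
      linarith
    · rw [hu]
      have : 0 ≤ (1 / (p : ℝ)) ^ 2 := by positivity
      have h5 : 2 / (p : ℝ) = 2 * (1 / p) := by ring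
      rw [h5]
      nlinarith
  have hu4 : 1 ≤ 4 ^ k * (u ^ 2) ^ k := by
    rw [← mul_pow]
    refine one_le_pow₀ ?_
    nlinarith
  have hupos : 0 < (u ^ 2) ^ k := by positivity
  rw [div_div, div_le_iff₀ (by positivity)]
  refine h1.trans ?_
  have h6 : (1 - 2 / (p : ℝ)) ^ k + (∑ l, Nl f p l) / (p : ℝ) ^ 3 ≤
      (1 + K1 f * ((p : ℝ) ^ 2)⁻¹) * (u ^ 2) ^ k := by
    have h7 : (∑ l, (Dl f l : ℝ)) * ((p : ℝ) ^ 2)⁻¹ ≤
        K1 f * ((p : ℝ) ^ 2)⁻¹ * (u ^ 2) ^ k := by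
      unfold K1
      calc (∑ l, (Dl f l : ℝ)) * ((p : ℝ) ^ 2)⁻¹
          = ((∑ l, (Dl f l : ℝ)) * ((p : ℝ) ^ 2)⁻¹) * 1 := by ring
        _ ≤ ((∑ l, (Dl f l : ℝ)) * ((p : ℝ) ^ 2)⁻¹) * (4 ^ k * (u ^ 2) ^ k) :=
            mul_le_mul_of_nonneg_left hu4 (by positivity)
        _ = _ := by ring
    calc (1 - 2 / (p : ℝ)) ^ k + (∑ l, Nl f p l) / (p : ℝ) ^ 3
        ≤ (u ^ 2) ^ k + K1 f * ((p : ℝ) ^ 2)⁻¹ * (u ^ 2) ^ k := add_le_add h4 (h3.trans h7)
      _ = _ := by ring
  calc (p : ℝ) ^ k * ((1 - 2 / (p : ℝ)) ^ k + (∑ l, Nl f p l) / (p : ℝ) ^ 3)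
      ≤ (p : ℝ) ^ k * ((1 + K1 f * ((p : ℝ) ^ 2)⁻¹) * (u ^ 2) ^ k) :=
        mul_le_mul_of_nonneg_left h6 (by positivity)
    _ = _ := by ring

/-! ### all primes -/

/-- the primes up to `y` -/
def Pr (y : ℕ) : Finset ℕ := (range (y + 1)).filter Nat.Prime

theorem mem_Pr {y p : ℕ} : p ∈ Pr y ↔ p ≤ y ∧ p.Prime := by
  unfold Pr
  rw [mem_filter, mem_range, Nat.lt_succ_iff]

theorem sum_sq_le (y' y : ℕ) (hy' : 1 ≤ y') (s : Finset ℕ) (hs : ∀ p ∈ s, y' < p ∧ p ≤ y) :
    ∑ p ∈ s, ((p : ℝ) ^ 2)⁻¹ ≤ 1 / y' := by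
  rcases le_or_gt y' y with h | h
  · have h1 : ∑ p ∈ s, ((p : ℝ) ^ 2)⁻¹ ≤ ∑ p ∈ Ioc y' y, ((p : ℝ) ^ 2)⁻¹ :=
      sum_le_sum_of_subset_of_nonneg (fun p hp => mem_Ioc.2 (hs p hp))
        fun _ _ _ => by positivity
    have h2 := sum_Ioc_inv_sq_le_sub (α := ℝ) (k := y') (n := y) (by omega) h
    have h3 : (0 : ℝ) ≤ (y : ℝ)⁻¹ := by positivity
    rw [one_div]
    linarith
  · have : s = ∅ := by
      refine eq_empty_of_forall_notMem fun p hp => ?_
      have := hs p hp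
      omega
    rw [this, sum_empty]
    positivity

/-- the product of the second moments over a set of primes above `y'` -/
theorem prod_ep_le (f : Fin k → ℤ[X]) (hf : ∀ l, Gd (f l)) (y' y : ℕ) (hy' : 1 ≤ y')
    (s : Finset ℕ) (hs : ∀ p ∈ s, y' < p ∧ p ≤ y) (hp : ∀ p ∈ s, p.Prime) :
    ∏ p ∈ s, ep f p ≤ Real.exp (K1 f / y') := by
  calc ∏ p ∈ s, ep f p ≤ ∏ p ∈ s, Real.exp (K1 f * ((p : ℝ) ^ 2)⁻¹) := by
        refine prod_le_prod (fun p h => ep_nonneg f p (hp p h)) fun p h => ?_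
        refine (ep_le f hf p (hp p h)).trans ?_
        have := Real.add_one_le_exp (K1 f * ((p : ℝ) ^ 2)⁻¹)
        linarith
    _ = Real.exp (K1 f * ∑ p ∈ s, ((p : ℝ) ^ 2)⁻¹) := by
        rw [← Real.exp_sum, mul_sum]
    _ ≤ Real.exp (K1 f / y') := by
        refine Real.exp_le_exp.2 ?_
        have := mul_le_mul_of_nonneg_left (sum_sq_le y' y hy' s hs) (K1_nonneg f)
        refine this.trans (le_of_eq ?_)
        ring

theorem SS_eq (f : Fin k → ℤ[X]) (a : Fin k → ℤ) (y : ℕ) : SS f a y = ∏ p ∈ Pr y, xp f p a := rfl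

theorem SS_eq' (f : Fin k → ℤ[X]) (a : Fin k → ℤ) {y' y : ℕ} (h : y' ≤ y) :
    SS f a y' = ∏ p ∈ Pr y, (if p ≤ y' then xp f p a else 1) := by
  rw [SS_eq, ← prod_filter]
  refine prod_congr ?_ fun _ _ => rfl
  ext p
  rw [mem_filter, mem_Pr, mem_Pr]
  constructor
  · rintro ⟨h1, h2⟩
    exact ⟨⟨h1.trans h, h2⟩, h1⟩
  · rintro ⟨⟨_, h2⟩, h3⟩
    exact ⟨h3, h2⟩

/-- the sum over the box of a nonnegative product of periodic functions -/
theorem box_prod {X y : ℕ} (hX : 1 ≤ X) (hy : (y : ℝ) ^ 2 ≤ Real.log X)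
    (F : (Fin k → ℤ) → ℝ) (hF : Per (∏ p ∈ Pr y, p) F) (h0 : ∀ a, 0 ≤ F a) :
    ∑ a ∈ Bx k X, F a ≤ (4 * X : ℝ) ^ k *
      (Sm (∏ p ∈ Pr y, p) F / ((∏ p ∈ Pr y, p : ℕ) : ℝ) ^ k) := by
  have hQ1 : 1 ≤ ∏ p ∈ Pr y, p := by
    refine Nat.one_le_iff_ne_zero.2 (prod_ne_zero_iff.2 fun p hp => ?_)
    exact (mem_Pr.1 hp).2.ne_zero
  have hQX : (∏ p ∈ Pr y, p) ≤ X := by
    have h1 : (∏ p ∈ Pr y, p) ≤ 4 ^ y := primorial_le_four_pow y
    have hX0 : (0 : ℝ) < X := by exact_mod_cast hX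
    rcases Nat.lt_or_ge y 2 with h2 | h2
    · have : (∏ p ∈ Pr y, p) = 1 := by
        refine prod_eq_one fun p hp => ?_
        have h3 := mem_Pr.1 hp
        have := h3.2.two_le
        omega
      rw [this]
      exact hX
    · have h3 : ((4 : ℝ) ^ y) ≤ X := by
        have h4 : Real.log 4 ≤ 2 := by
          have : Real.log 4 = 2 * Real.log 2 := by
            rw [show (4 : ℝ) = 2 ^ 2 by norm_num, Real.log_pow]
            norm_num
          rw [this]
          have := Real.log_two_lt_d9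
          linarith
        have h5 : (2 : ℝ) ≤ y := by exact_mod_cast h2
        have h6 : y * Real.log 4 ≤ Real.log X := by nlinarith
        rw [← Real.log_le_log_iff (by positivity) hX0, Real.log_pow]
        exact h6
      have h7 : (4 : ℕ) ^ y ≤ X := by exact_mod_cast h3
      exact h1.trans h7
  refine (box_le X _ hQ1 hQX F hF h0).trans (le_of_eq ?_)
  rw [div_pow]
  ring

/-- the mean of a product over the primes up to `y` -/
theorem mean_prod (y : ℕ) (g : ℕ → (Fin k → ℤ) → ℝ) (hg : ∀ p ∈ Pr y, Per p (g p)) :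
    Sm (∏ p ∈ Pr y, p) (fun a => ∏ p ∈ Pr y, g p a) / ((∏ p ∈ Pr y, p : ℕ) : ℝ) ^ k =
      ∏ p ∈ Pr y, (Sm p (g p) / (p : ℝ) ^ k) := by
  rw [(Sm_prod (Pr y) (fun p hp => (mem_Pr.1 hp).2) g hg).2, prod_div_distrib]
  congr 1
  push_cast
  rw [prod_pow]

theorem vms (f : Fin k → ℤ[X]) (hf : ∀ l, Gd (f l)) : Run7.h285.V.S_VMS f := by
  classical
  set K := K1 f with hK
  have hK0 : 0 ≤ K := K1_nonneg f
  refine ⟨4 ^ k * Real.exp K * (1 + K * Real.exp K), 1, by positivity, ?_⟩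
  intro X hX y y' hy' hyy hy
  have hX0 : (0 : ℝ) < X := by exact_mod_cast hX
  have hprime : ∀ p ∈ Pr y, p.Prime := fun p hp => (mem_Pr.1 hp).2
  -- the product of all second moments
  have hA : ∏ p ∈ Pr y, ep f p ≤ Real.exp K := by
    have := prod_ep_le f hf 1 y le_rfl (Pr y)
      (fun p hp => ⟨(mem_Pr.1 hp).2.one_lt, (mem_Pr.1 hp).1⟩) hprime
    simpa using this
  constructor
  · have hper : ∀ p ∈ Pr y, Per p (fun a => xp f p a ^ 2) := by
      intro p _ a b h
      show xp f p a ^ 2 = xp f p b ^ 2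
      rw [xp_per f p a b h]
    have e1 : (fun a : Fin k → ℤ => SS f a y ^ 2) = fun a => ∏ p ∈ Pr y, xp f p a ^ 2 := by
      funext a
      rw [SS_eq, prod_pow]
    have h1 := box_prod hX hy (fun a => ∏ p ∈ Pr y, xp f p a ^ 2)
      (Sm_prod (Pr y) hprime _ hper).1 (fun a => prod_nonneg fun _ _ => sq_nonneg _)
    rw [mean_prod y (fun p a => xp f p a ^ 2) hper] at h1
    have h2 : ∑ a ∈ Bx k X, SS f a y ^ 2 ≤ (4 * X : ℝ) ^ k * Real.exp K := by
      calc ∑ a ∈ Bx k X, SS f a y ^ 2 = ∑ a ∈ Bx k X, ∏ p ∈ Pr y, xp f p a ^ 2 :=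
            sum_congr rfl fun a _ => congrFun e1 a
        _ ≤ (4 * X : ℝ) ^ k * ∏ p ∈ Pr y, ep f p := h1
        _ ≤ _ := mul_le_mul_of_nonneg_left hA (by positivity)
    refine h2.trans ?_
    have h3 : 1 ≤ 1 + K * Real.exp K := by
      have : 0 ≤ K * Real.exp K := by positivity
      linarith
    calc (4 * X : ℝ) ^ k * Real.exp K = (4 ^ k * Real.exp K * (X : ℝ) ^ k) * 1 := by
          rw [mul_pow]; ring
      _ ≤ (4 ^ k * Real.exp K * (X : ℝ) ^ k) * (1 + K * Real.exp K) :=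
          mul_le_mul_of_nonneg_left h3 (by positivity)
      _ = _ := by ring
  · -- three products
    set g1 : ℕ → (Fin k → ℤ) → ℝ := fun p a => xp f p a ^ 2 with hg1
    set g2 : ℕ → (Fin k → ℤ) → ℝ := fun p a => if p ≤ y' then xp f p a ^ 2 else xp f p a with hg2
    set g3 : ℕ → (Fin k → ℤ) → ℝ := fun p a => if p ≤ y' then xp f p a ^ 2 else 1 with hg3
    have hp1 : ∀ p ∈ Pr y, Per p (g1 p) := by
      intro p _ a b h
      show xp f p a ^ 2 = xp f p b ^ 2
      rw [xp_per f p a b h]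
    have hp2 : ∀ p ∈ Pr y, Per p (g2 p) := by
      intro p _ a b h
      show (if p ≤ y' then xp f p a ^ 2 else xp f p a) = if p ≤ y' then xp f p b ^ 2 else xp f p b
      rw [xp_per f p a b h]
    have hp3 : ∀ p ∈ Pr y, Per p (g3 p) := by
      intro p _ a b h
      show (if p ≤ y' then xp f p a ^ 2 else 1) = if p ≤ y' then xp f p b ^ 2 else 1
      rw [xp_per f p a b h]
    set Q : ℕ := ∏ p ∈ Pr y, p with hQ
    have hQ0 : Q ≠ 0 := prod_ne_zero_iff.2 fun p hp => (hprime p hp).ne_zero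
    haveI : NeZero Q := ⟨hQ0⟩
    have e0 : ∀ a : Fin k → ℤ, (SS f a y - SS f a y') ^ 2 =
        ∏ p ∈ Pr y, g1 p a - 2 * ∏ p ∈ Pr y, g2 p a + ∏ p ∈ Pr y, g3 p a := by
      intro a
      have t1 : ∏ p ∈ Pr y, g1 p a = SS f a y ^ 2 := by
        rw [SS_eq, ← prod_pow]
      have t2 : ∏ p ∈ Pr y, g2 p a = SS f a y * SS f a y' := by
        rw [SS_eq, SS_eq' f a hyy, ← prod_mul_distrib]
        refine prod_congr rfl fun p _ => ?_
        show (if p ≤ y' then xp f p a ^ 2 else xp f p a) = _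
        split_ifs
        · ring
        · ring
      have t3 : ∏ p ∈ Pr y, g3 p a = SS f a y' ^ 2 := by
        rw [SS_eq' f a hyy, ← prod_pow]
        refine prod_congr rfl fun p _ => ?_
        show (if p ≤ y' then xp f p a ^ 2 else 1) = _
        split_ifs
        · ring
        · ring
      rw [t1, t2, t3]
      ring
    have hper : Per Q (fun a => (SS f a y - SS f a y') ^ 2) := by
      intro a b h
      show (SS f a y - SS f a y') ^ 2 = (SS f b y - SS f b y') ^ 2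
      have q1 := (Sm_prod (Pr y) hprime g1 hp1).1 a b h
      have q2 := (Sm_prod (Pr y) hprime g2 hp2).1 a b h
      have q3 := (Sm_prod (Pr y) hprime g3 hp3).1 a b h
      simp only at q1 q2 q3
      rw [e0 a, e0 b, q1, q2, q3]
    have h1 := box_prod hX hy (fun a => (SS f a y - SS f a y') ^ 2) hper
      (fun a => sq_nonneg _)
    have e1 : Sm Q (fun a => (SS f a y - SS f a y') ^ 2) / (Q : ℝ) ^ k =
        ∏ p ∈ Pr y, (Sm p (g1 p) / (p : ℝ) ^ k) - 2 * ∏ p ∈ Pr y, (Sm p (g2 p) / (p : ℝ) ^ k) +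
          ∏ p ∈ Pr y, (Sm p (g3 p) / (p : ℝ) ^ k) := by
      rw [← mean_prod y g1 hp1, ← mean_prod y g2 hp2, ← mean_prod y g3 hp3, ← hQ]
      rw [Sm_eq, Sm_eq, Sm_eq, Sm_eq, sum_congr rfl fun c _ => e0 (rep c), sum_add_distrib,
        sum_sub_distrib, ← mul_sum]
      ring
    set A : ℝ := ∏ p ∈ Pr y, (if p ≤ y' then ep f p else 1) with hAdef
    set B : ℝ := ∏ p ∈ Pr y, (if p ≤ y' then 1 else ep f p) with hBdef
    have m1 : ∏ p ∈ Pr y, (Sm p (g1 p) / (p : ℝ) ^ k) = A * B := by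
      rw [hAdef, hBdef, ← prod_mul_distrib]
      refine prod_congr rfl fun p _ => ?_
      show ep f p = _
      split_ifs <;> ring
    have m2 : ∏ p ∈ Pr y, (Sm p (g2 p) / (p : ℝ) ^ k) = A := by
      refine prod_congr rfl fun p hp => ?_
      show Sm p (fun a => if p ≤ y' then xp f p a ^ 2 else xp f p a) / (p : ℝ) ^ k = _
      split_ifs with h
      · rfl
      · exact xp_mean f p (hprime p hp)
    have m3 : ∏ p ∈ Pr y, (Sm p (g3 p) / (p : ℝ) ^ k) = A := by
      refine prod_congr rfl fun p hp => ?_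
      show Sm p (fun a => if p ≤ y' then xp f p a ^ 2 else 1) / (p : ℝ) ^ k = _
      split_ifs with h
      · rfl
      · exact const_mean p (hprime p hp)
    rw [m1, m2, m3] at e1
    have hA0 : 0 ≤ A := by
      refine prod_nonneg fun p hp => ?_
      split_ifs
      · exact ep_nonneg f p (hprime p hp)
      · norm_num
    have hA1 : A ≤ Real.exp K := by
      rw [hAdef, ← prod_filter]
      have := prod_ep_le f hf 1 y le_rfl ((Pr y).filter (· ≤ y'))
        (fun p hp => ⟨(hprime p (mem_filter.1 hp).1).one_lt, (mem_Pr.1 (mem_filter.1 hp).1).1⟩)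
        (fun p hp => hprime p (mem_filter.1 hp).1)
      simpa using this
    have hB1 : B ≤ Real.exp (K / y') := by
      have e2 : B = ∏ p ∈ (Pr y).filter (fun p => ¬ p ≤ y'), ep f p := by
        rw [hBdef, prod_filter]
        refine prod_congr rfl fun p _ => ?_
        split_ifs <;> rfl
      rw [e2]
      exact prod_ep_le f hf y' y hy' _
        (fun p hp => ⟨not_le.1 (mem_filter.1 hp).2, (mem_Pr.1 (mem_filter.1 hp).1).1⟩)
        (fun p hp => hprime p (mem_filter.1 hp).1)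
    have hy'r : (1 : ℝ) ≤ y' := by exact_mod_cast hy'
    have hKy : K / y' ≤ K := div_le_self hK0 hy'r
    have hKy0 : 0 ≤ K / y' := by positivity
    have hB2 : B - 1 ≤ K / y' * Real.exp K := by
      have t1 : Real.exp (K / y') - 1 ≤ K / y' * Real.exp (K / y') := by
        have t2 := Real.one_sub_le_exp_neg (K / y')
        have t3 : Real.exp (K / y') * Real.exp (-(K / y')) = 1 := by
          rw [← Real.exp_add]; simp
        have t4 := Real.exp_pos (K / y')
        nlinarith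
      have t5 : K / y' * Real.exp (K / y') ≤ K / y' * Real.exp K :=
        mul_le_mul_of_nonneg_left (Real.exp_le_exp.2 hKy) hKy0
      linarith
    have h2 : Sm Q (fun a => (SS f a y - SS f a y') ^ 2) / (Q : ℝ) ^ k ≤
        Real.exp K * (K / y' * Real.exp K) := by
      rw [e1]
      calc A * B - 2 * A + A = A * (B - 1) := by ring
        _ ≤ A * (K / y' * Real.exp K) := mul_le_mul_of_nonneg_left hB2 hA0
        _ ≤ Real.exp K * (K / y' * Real.exp K) := mul_le_mul_of_nonneg_right hA1 (by positivity)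
    refine (h1.trans (mul_le_mul_of_nonneg_left h2 (by positivity))).trans ?_
    have h3 : (4 * X : ℝ) ^ k * (Real.exp K * (K / y' * Real.exp K)) =
        4 ^ k * Real.exp K * (K * Real.exp K) * (X : ℝ) ^ k / y' := by
      rw [mul_pow]
      ring
    rw [h3]
    refine div_le_div_of_nonneg_right ?_ (by positivity)
    refine mul_le_mul_of_nonneg_right ?_ (by positivity)
    refine mul_le_mul_of_nonneg_left ?_ (by positivity)
    linarith

end Pool.Agent.Run7.h760.VMS
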